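import Pool.Agent.P.MP_83f3dc_co.Upper

set_option autoImplicit false

open Pool.Agent.P.MP_83f3dc_co

theorem Pool.Agent.Results.MP_83f3dc_co.LargeDim.result (c q : ℕ) (hc : 1 ≤ c) :
    ∃ j₀ : ℕ, ∀ j : ℕ, j₀ ≤ j →
      IsGreatest {n : ℕ | 0 < n ∧ HasTransversal (j + c) j (c + q) n} (j + c + 2 * q) :=
  Pool.Agent.P.MP_83f3dc_co.main c q hc
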