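import Pool.Agent.P.MP_83f3dc_co.KL5

set_option autoImplicit false

open Pool.Agent.P.MP_83f3dc_co

theorem Pool.Agent.Results.MP_83f3dc_co.LowerKashin.result (d c k : ℕ) (hc : 1 ≤ c) (hcd : c < d)
    (hk : 1 ≤ k) :
    ∃ m : ℕ, IsGreatest {n : ℕ | 0 < n ∧ HasTransversal d (d - c) k n} m ∧
      ∀ i : ℕ, 1 ≤ i → c + i ≤ d →
        (d : ℝ) - c - i - 1 +
          (1 + i / (400 * ((c : ℝ) + i + 1) * Real.log (400 * ((c : ℝ) + i + 1) / i))) * k ≤ m :=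
  KL.partK d c k hc hcd hk
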