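import Pool.Agent.P.MP_83f3dc_co.KVA

set_option autoImplicit false

open Pool.Agent.P.MP_83f3dc_co

theorem Pool.Agent.Results.MP_83f3dc_co.LowerSharp.result (ε : ℝ) (hε : 0 < ε) :
    ∃ K : ℝ, ∀ d c k : ℕ, 1 ≤ c → c < d → 1 ≤ k →
      ∃ m : ℕ, IsGreatest {n : ℕ | 0 < n ∧ HasTransversal d (d - c) k n} m ∧
        ∀ a : ℕ, c ≤ a → a ≤ d + 1 →
          (d : ℝ) - a + (2 - K * √((c : ℝ) / a) * Real.log (2 * (a : ℝ) / c) *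
            (a : ℝ) ^ (-max 0 (1 / (2 * (c : ℝ)) - ε))) * k ≤ m :=
  KT.partV ε hε
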