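import Pool.Agent.P.MP_83f3dc_co.KUFin

set_option autoImplicit false

open Pool.Agent.P.MP_83f3dc_co

theorem Pool.Agent.Results.MP_83f3dc_co.UpperLargeK.result (ε : ℝ) (hε : 0 < ε) :
    ∃ K d₀ : ℕ, ∀ d c k m : ℕ, d₀ ≤ d → 3 ≤ c → c < d → K * d ≤ k →
      IsGreatest {n : ℕ | 0 < n ∧ HasTransversal d (d - c) k n} m →
        (m : ℝ) ≤ d + (2 - √((c : ℝ) / d) * (d : ℝ) ^ (-(1 / (2 * ((c : ℝ) - 1)) + ε))) * k :=
  KT.partU ε hε
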